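import Pool.Agent.H96.CP.Fin2
import Pool.Agent.H96.CP.Stm4
import Pool.Agent.H96.CP.All
import Pool.Agent.H53.CP.Ex

/-!
# MP_09cbbd_mp: the equation of state of hard disks at close packing

Hard disks of radius `a` in the plane (`d = 2`), `v` = area per disk, `v₀ = 2 √3 a²` its value at close
packing, `f(v)` the free energy per disk in the thermodynamic limit (it exists for all `v > v₀`). Then

  `f(v) = - 2 log ((v - v₀) / a) + log 12 - κ + o(1)`   as `v → v₀`,

where `κ = lim M⁻² log vol Π_M` and `Π_M` is the limiting polytope of `M²` disks on the rhombic torus: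
the set of the displacements `u` of the disks from the close-packed crystal which shorten no
nearest-neighbour distance by more than one, to first order (one disk is fixed). So the limits
`v → v₀` and `N → ∞` commute: the free-volume (polytope) theory of Salsburg and Wood and of
Stillinger and Salsburg is exact at close packing. Consequences:

* the equation of state `p (v - v₀) → 2` for `v → v₀`, for the mean pressures over all intervals
  `[v, v']` near `v₀`, hence for the pressure `p = - f'(v)`;
* if two phases of areas `v₁ < v₂` per disk coexist, then `(v₂ - v₀) / (v₁ - v₀) → 1` for `v₂ → v₀`: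
  first order transitions near close packing are vanishingly weak.

The upper bound of the partition function has two parts. (1) The box is divided into squares of
side `(log s)⁴`, `s = 2 / (v - v₀)` (in suitable units). By the area inequality for the local defects
(`H96/HD`) a square either has few disks, or a large defect (weight `exp (- s^0.3)`), or its disks are
near a lattice; in the last case the nonoverlap conditions are linear inequalities up to negligible
errors, on lattice parallelograms with FREE boundary. (2) The linear model: free boundary values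
are not better than affine ones. A parallelogram of side `n` is divided into blocks of side `R` in all
`R²` ways; the grid lines cost `O(n² log R / R)`; there is one configuration `u` which is nearly
typical for all `R²` divisions. By the Brunn-Minkowski inequality (log-concavity of the volume of the
block configurations in the boundary values) the average of all translates of `u` is at least as
good as `u`, and it is nearly affine, because the second differences telescope. The lower bound
glues blocks with affine boundary values. The torus is compared with both; on the torus the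
isotropic strain is optimal by Brunn-Minkowski and the rotation by 60 degrees.
-/

set_option autoImplicit false

open MeasureTheory Set Filter Topology
open scoped Nat ComplexConjugate

namespace Pool.Agent.Results.MP_09cbbd_mp.EquationOfStateClosePacking

/-- The partition function of `N` hard disks of radius `a` with centres in the square `[0, L]²`. -/
noncomputable def Z (a L : ℝ) (N : ℕ) : ℝ :=
  (N ! : ℝ)⁻¹ * (volume {x : Fin N → Fin 2 → ℝ | (∀ i k, x i k ∈ Icc (0:ℝ) L) ∧
    ∀ i j, i ≠ j → (2 * a) ^ 2 ≤ ∑ k, (x i k - x j k) ^ 2}).toReal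

/-- `f` is the free energy per particle, `- lim N⁻¹ log Z`, at the area `v` per particle (that is at
the density `1 / v`). -/
def IsFreeEnergy (a v f : ℝ) : Prop :=
  ∀ (N : ℕ → ℕ) (L : ℕ → ℝ), Tendsto N atTop atTop → Tendsto L atTop atTop →
    Tendsto (fun k => L k ^ 2 / N k) atTop (𝓝 v) →
    (∀ᶠ k in atTop, 0 < Z a (L k) (N k)) ∧
      Tendsto (fun k => -Real.log (Z a (L k) (N k)) / N k) atTop (𝓝 f)

/-- The area per particle at close packing. -/
noncomputable def v₀ (a : ℝ) : ℝ := 2 * √3 * a ^ 2

/-- `ω = exp (π i / 3)`: the nearest neighbours in the triangular lattice `ℤ + ℤ ω` have the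
differences `± 1`, `± ω`, `± (ω - 1)`. -/
noncomputable def ω : ℂ := ⟨1 / 2, √3 / 2⟩

/-- The limiting polytope of `M²` disks on the torus `(ℤ + ℤ ω) / M`: the displacements `u` (`u = 0` at
the site `0`, `w` gives the other values) for which the component of `u q' - u q` in the direction from
`q` to `q'` is at least `- 1` for all pairs `q, q'` of neighbours. -/
def Polytope (M : ℕ) : Set ({q : ZMod M × ZMod M // q ≠ 0} → ℂ) :=
  {w | ∃ u : ZMod M × ZMod M → ℂ, u 0 = 0 ∧ (∀ q, u q.1 = w q) ∧ ∀ q,
    -1 ≤ (u (q + (1, 0)) - u q).re ∧ -1 ≤ (conj ω * (u (q + (0, 1)) - u q)).re ∧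
    -1 ≤ (conj (ω - 1) * (u (q + (0, 1)) - u (q + (1, 0)))).re}

/-- **The equation of state of hard disks at close packing.** -/
theorem result :
    -- the polytopes (`M + 1` in place of `M`) have positive finite volumes
    (∀ᶠ M : ℕ in atTop, 0 < volume (Polytope (M + 1)) ∧ volume (Polytope (M + 1)) < ⊤) ∧
    ∃ κ : ℝ, Tendsto (fun M : ℕ => Real.log (volume (Polytope (M + 1))).toReal / ((M : ℝ) + 1) ^ 2)
      atTop (𝓝 κ) ∧
    ∀ a : ℝ, 0 < a → ∃ f : ℝ → ℝ, (∀ v : ℝ, v₀ a < v → IsFreeEnergy a v (f v)) ∧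
      -- (1) the free energy
      Tendsto (fun v => f v + 2 * Real.log ((v - v₀ a) / a)) (𝓝[>] (v₀ a)) (𝓝 (Real.log 12 - κ)) ∧
      -- (2) the pressure
      (∀ ε : ℝ, 0 < ε → ∃ δ : ℝ, 0 < δ ∧ ∀ v v' : ℝ, v₀ a < v → v < v' → v' < v₀ a + δ →
        (2 - ε) / (v' - v₀ a) ≤ (f v - f v') / (v' - v) ∧
        (f v - f v') / (v' - v) ≤ (2 + ε) / (v - v₀ a)) ∧
      -- (3) coexisting phases
      ∀ ε : ℝ, 0 < ε → ∃ δ : ℝ, 0 < δ ∧ ∀ v₁ v₂ p b : ℝ, v₀ a < v₁ → v₁ < v₂ → v₂ < v₀ a + δ →
        (∀ v ∈ Icc v₁ v₂, f v = b - p * v) → v₂ - v₀ a ≤ (1 + ε) * (v₁ - v₀ a) := by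
  obtain ⟨hvol, κ, hκ, hmain⟩ := H96.CP.main_const H96.CP.all_lin H96.CP.all_sq H96.CP.all_box
    H96.CP.all_low H96.CP.all_iso H96.CP.all_tile H96.CP.all_tor
  have hP : ∀ M : ℕ, Polytope M = H96.CP.PT M 1 1 1 := by
    intro M
    ext w
    simp only [Polytope, H96.CP.PT, H96.CP.E0, H96.CP.E1, H96.CP.E2, mem_ofPred_eq]
    constructor
    · rintro ⟨u, hu0, hu1, hu2⟩
      have hu : H96.CP.pin w = u := by
        funext q
        unfold H96.CP.pin
        split_ifs with h
        · rw [h, hu0]
        · exact (hu1 ⟨q, h⟩).symm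
      rw [hu]
      exact hu2
    · intro h
      refine ⟨H96.CP.pin w, by simp [H96.CP.pin], fun q => ?_, h⟩
      simp [H96.CP.pin, q.2]
  have hvt : ∀ M : ℕ, volume (Polytope (M + 1)) = H96.CP.vt (M + 1) 1 1 1 := fun M => by
    rw [hP]
    rfl
  refine ⟨?_, κ, ?_, ?_⟩
  · filter_upwards [hvol] with M hM
    rw [hvt]
    exact ⟨hM.1, lt_top_iff_ne_top.mpr hM.2⟩
  · simp only [hvt]
    exact hκ
  intro a ha
  obtain ⟨f, hfe⟩ : ∃ f : ℝ → ℝ, ∀ v : ℝ, v₀ a < v → IsFreeEnergy a v (f v) := by
    choose! f hf using fun v : ℝ => H53.CP.ex a v ha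
    exact ⟨f, hf⟩
  refine ⟨f, hfe, ?_⟩
  obtain ⟨δ₀, hδ₀, hf⟩ : ∃ δ₀ : ℝ, 0 < δ₀ ∧
      ∀ v ∈ Ioo (v₀ a) (v₀ a + δ₀), IsFreeEnergy a v (f v) :=
    ⟨1, one_pos, fun v hv => hfe v hv.1⟩
  have hv₀ : v₀ a = 2 * √3 * a ^ 2 := rfl
  have hf' : ∀ v ∈ Ioo (2 * √3 * a ^ 2) (2 * √3 * a ^ 2 + δ₀), H96.HD.IsFreeEnergy a v (f v) :=
    fun v hv => hf v hv
  -- the limit
  have hlim : Tendsto (fun v => f v + 2 * Real.log ((v - v₀ a) / a)) (𝓝[>] (v₀ a))
      (𝓝 (Real.log 12 - κ)) := by
    set F : ℝ → ℝ := fun y => f (v₀ a + 4 * a ^ 2 / 3 * y) + Real.log (4 * a ^ 2 / 3) with hF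
    have hc : 0 < 4 * a ^ 2 / 3 := by positivity
    have h1 : ∀ᶠ y in 𝓝[>] (0:ℝ), H96.CP.FE (H96.HD.v0 + y) (F y) := by
      filter_upwards [Ioo_mem_nhdsGT (show (0:ℝ) < δ₀ / (4 * a ^ 2 / 3) by positivity)] with y hy
      have h2 : v₀ a + 4 * a ^ 2 / 3 * y ∈ Ioo (v₀ a) (v₀ a + δ₀) := by
        refine ⟨by linarith [mul_pos hc hy.1], ?_⟩
        have := hy.2
        rw [lt_div_iff₀ hc] at this
        linarith
      have h3 := H96.CP.FE_of_free ha (hf _ h2)
      have e : 3 * (v₀ a + 4 * a ^ 2 / 3 * y) / (4 * a ^ 2) = H96.HD.v0 + y := by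
        unfold v₀ H96.HD.v0
        field_simp
        ring
      rw [e] at h3
      exact h3
    have h4 := hmain F h1
    have h5 : Tendsto (fun v : ℝ => (v - v₀ a) / (4 * a ^ 2 / 3)) (𝓝[>] (v₀ a)) (𝓝[>] (0:ℝ)) := by
      refine tendsto_nhdsWithin_iff.mpr ⟨?_, ?_⟩
      · have : Tendsto (fun v : ℝ => (v - v₀ a) / (4 * a ^ 2 / 3)) (𝓝 (v₀ a))
            (𝓝 ((v₀ a - v₀ a) / (4 * a ^ 2 / 3))) := by
          exact (tendsto_id.sub_const _).div_const _
        rw [sub_self, zero_div] at this
        exact this.mono_left nhdsWithin_le_nhds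
      · filter_upwards [self_mem_nhdsWithin] with v hv
        have : 0 < v - v₀ a := sub_pos.mpr hv
        exact mem_Ioi.mpr (by positivity)
    have h6 := (h4.comp h5).sub_const (Real.log (3 / 4))
    have h7 : 2 * Real.log 3 - κ - Real.log (3 / 4) = Real.log 12 - κ := by
      have e1 : Real.log (3 / 4) = Real.log 3 - Real.log 4 := Real.log_div (by norm_num) (by norm_num)
      have e2 : Real.log 12 = Real.log 3 + Real.log 4 := by
        rw [← Real.log_mul (by norm_num) (by norm_num)]
        norm_num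
      rw [e1, e2]
      ring
    rw [h7] at h6
    refine h6.congr' ?_
    filter_upwards [self_mem_nhdsWithin] with v hv
    have hx : 0 < v - v₀ a := sub_pos.mpr hv
    simp only [Function.comp_apply, hF]
    rw [mul_div_cancel₀ _ hc.ne', add_sub_cancel]
    rw [Real.log_div hx.ne' hc.ne', Real.log_div hx.ne' ha.ne', Real.log_div (by positivity) (by norm_num),
      Real.log_mul (by norm_num) (by positivity), Real.log_pow,
      Real.log_div (show (3:ℝ) ≠ 0 by norm_num) (by norm_num)]
    push_cast
    ring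
  have hcvx := H96.CP.all_cvxf a δ₀ f ha hδ₀ hf'
  obtain ⟨g1, g2⟩ := H96.CP.all_pres f (v₀ a) δ₀ a (Real.log 12 - κ) hδ₀ ha hcvx hlim
  exact ⟨hlim, g1, g2⟩

end Pool.Agent.Results.MP_09cbbd_mp.EquationOfStateClosePacking
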