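import Pool.Agent.H96.HD.Thermo

/-!
# MP_09cbbd_mp: hard disks near close packing in finite volume

Hard disks of radius `a` in the square `[0, L]²` (`d = 2`); `v₀ = 2 √3 a²` is the area per particle at
close packing and `x = L² / N - v₀` the free area per particle.  The partition function is
`(x² / a²)^N` up to the factor `C^(± N)`, with one universal constant `C`, uniformly for all numbers
`N` of particles and all `x` between `C a² / √N` and `4 a²`.  (For `x < C a² / √N` the free area is
smaller than the area near the boundary.)

The upper bound is the new point.  Proof.  The local defect of a disk is defined through the areas of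
the intersections of the concentric disks of radius `2 a / √3`.  By the Bonferroni inequality the sum
of the defects is at most the free area; a disk with a small defect has exactly six near neighbours,
which form a regular hexagon up to an error linear in the defect.  Choosing as the parent of a disk
with a small defect a near neighbour further to the right, one gets a unimodular change of variables
in which all but few coordinates are as small as the defects.
-/

set_option autoImplicit false

open MeasureTheory Set Filter Topology
open scoped Nat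

namespace Pool.Agent.Results.MP_09cbbd_mp.FiniteVolumeBounds

/-- The partition function of `N` hard disks of radius `a` with centres in the square `[0, L]²`. -/
noncomputable def Z (a L : ℝ) (N : ℕ) : ℝ :=
  (N ! : ℝ)⁻¹ * (volume {x : Fin N → Fin 2 → ℝ | (∀ i k, x i k ∈ Icc (0:ℝ) L) ∧
    ∀ i j, i ≠ j → (2 * a) ^ 2 ≤ ∑ k, (x i k - x j k) ^ 2}).toReal

/-- The area per particle at close packing. -/
noncomputable def v₀ (a : ℝ) : ℝ := 2 * √3 * a ^ 2

/-- **Hard disks near close packing in finite volume.** -/
theorem result : ∃ C : ℝ, 1 ≤ C ∧ ∀ (a L : ℝ) (N : ℕ), 0 < a → 0 ≤ L → 0 < N →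
    C * a ^ 2 / √N ≤ L ^ 2 / N - v₀ a → L ^ 2 / N - v₀ a ≤ 4 * a ^ 2 →
      ((L ^ 2 / N - v₀ a) ^ 2 / (C * a ^ 2)) ^ N ≤ Z a L N ∧
        Z a L N ≤ (C * (L ^ 2 / N - v₀ a) ^ 2 / a ^ 2) ^ N := by
  obtain ⟨C, hC, hfv⟩ := H96.HD.two_sided
  refine ⟨C, hC, fun a L N ha hL hN h1 h2 => ?_⟩
  obtain ⟨h3, h4⟩ := hfv a ha N hN L hL h1 h2
  have hf0 : (0:ℝ) < (N ! : ℝ) := by positivity
  have hZ : Z a L N = H96.HD.Z a L N := rfl
  rw [hZ, H96.HD.Z_eq]
  constructor
  · rw [le_inv_mul_iff₀ hf0]
    exact h3
  · rw [inv_mul_le_iff₀ hf0]
    exact h4

end Pool.Agent.Results.MP_09cbbd_mp.FiniteVolumeBounds
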