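import Pool.Agent.H96.CP.NumLaw
import Pool.Agent.H96.CP.ScaleB
import Pool.Agent.Results.MP_09cbbd_mp.EquationOfStateClosePacking

/-!
# MP_09cbbd_mp: the holes of the hard-disk crystal near close packing

Hard disks of radius `a` in the plane (`d = 2`), `v` = area per disk, `v₀ = 2 √3 a²` its value at close
packing. The hole area of a configuration is the area of the set of the points of the box where the
centre of a further disk can be put. For every `v > v₀` there is a number `h v > 0` such that, in the
thermodynamic limit,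

* the share of the box taken by the holes tends to `h v` in probability;
* `m` independent random points can be added simultaneously with probability `((1 + o(1)) h v)^m`,
  for fixed `m` as well as for `m → ∞`, `m = o(N)`;

and at close packing `log (h v) = - (4 √3 a² + o(1)) / (v - v₀)`: a typical configuration of the dense
system has holes, their share of the area is `exp (- (2 v₀ + o(1)) / (v - v₀))`. The number of vacancies,
that is the greatest number of further disks which can be added simultaneously, is between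
`N exp (- (2 v₀ + o(1)) / (v - v₀))` and `N exp (- (2 v₀ / 3 - o(1)) / (v - v₀))` in typical configurations.

Proof. Let `r N = CV (N + 1) / CV N`, where `CV N` is the volume of the configurations of `N` labelled
disks. Ginibre's inequality `r (N + 1) ≥ r N - 4 π a²` (Cauchy-Schwarz) and the convexity of the free
energy `f` (as function of `v`) give `r N / L² → exp (- f(v) + v g) / v` for every subgradient `g` of `f`
at `v`, without exceptional densities. The second moment of the hole area is at most
`CV (N + 2) + 4 π a² CV (N + 1)`, so its relative variance tends to zero. The equation of state at close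
packing, `g = - (2 + o(1)) / (v - v₀)` (file `EquationOfStateClosePacking`), gives the rate. As every
further disk covers at most the area `4 π a²` of the hole area, many disks can be added. If `n` further
disks can be added, and the radius is reduced to `(1 - θ) a`, they have the room `n! (π θ² a²)^n`; this
costs the factor `exp (4 θ v₀ N / (v - v₀))` of the partition function, and with `θ = η n / N` the
equation of state shows that `n ≥ N exp (- (2 v₀ / 3 - ε) / (v - v₀))` has exponentially small probability.
-/

set_option autoImplicit false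

open MeasureTheory Set Filter Topology

namespace Pool.Agent.Results.MP_09cbbd_mp.HoleLaw

/-- The configurations of `N` hard disks of radius `a` with centres in the square `[0, L]²`. -/
def Conf (a L : ℝ) (N : ℕ) : Set (Fin N → ℂ) :=
  {x | (∀ i, (x i).re ∈ Icc 0 L ∧ (x i).im ∈ Icc 0 L) ∧ ∀ i j, i ≠ j → 2 * a ≤ ‖x i - x j‖}

/-- The area per particle at close packing. -/
noncomputable def v₀ (a : ℝ) : ℝ := 2 * √3 * a ^ 2

/-- The hole area: the area of the set of the points of the square where the centre of a further disk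
of radius `a` can be put. -/
noncomputable def holeArea (a L : ℝ) {N : ℕ} (x : Fin N → ℂ) : ℝ :=
  (volume {y : ℂ | (y.re ∈ Icc 0 L ∧ y.im ∈ Icc 0 L) ∧ ∀ i, 2 * a ≤ ‖y - x i‖}).toReal

/-- The probability of the event `E` in the canonical ensemble (the uniform distribution on the
configurations). -/
noncomputable def prob (a L : ℝ) (N : ℕ) (E : Set (Fin N → ℂ)) : ℝ :=
  (volume (Conf a L N ∩ E)).toReal / (volume (Conf a L N)).toReal

/-- The probability that `m` independent uniformly distributed points `y` of the square can be added to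
a random configuration `x` as centres of `m` further disks (simultaneously). -/
noncomputable def addProb (a L : ℝ) (N m : ℕ) : ℝ :=
  (volume {p : (Fin N → ℂ) × (Fin m → ℂ) | p.1 ∈ Conf a L N ∧ p.2 ∈ Conf a L m ∧
    ∀ i j, 2 * a ≤ ‖p.2 j - p.1 i‖}).toReal / ((L ^ 2) ^ m * (volume (Conf a L N)).toReal)

/-- `n` further disks can be added to the configuration `x` simultaneously. -/
def CanAdd (a L : ℝ) {N : ℕ} (x : Fin N → ℂ) (n : ℕ) : Prop :=
  ∃ y : Fin n → ℂ, y ∈ Conf a L n ∧ ∀ i j, 2 * a ≤ ‖y j - x i‖

/-- **The law of the holes.** -/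
theorem result (a : ℝ) (ha : 0 < a) : ∃ h : ℝ → ℝ,
    (∀ v : ℝ, v₀ a < v → 0 < h v ∧ ∀ (N : ℕ → ℕ) (L : ℕ → ℝ), Tendsto N atTop atTop →
      Tendsto L atTop atTop → Tendsto (fun k => L k ^ 2 / N k) atTop (𝓝 v) →
      -- the law of large numbers
      (∀ ε : ℝ, 0 < ε → Tendsto (fun k => prob a (L k) (N k)
        {x | |holeArea a (L k) x / L k ^ 2 - h v| ≤ ε}) atTop (𝓝 1)) ∧
      -- the probability that `m = o(N)` random points can be added
      ∀ m : ℕ → ℕ, Tendsto (fun k => (m k : ℝ) / N k) atTop (𝓝 0) →
        ∀ ε : ℝ, 0 < ε → ε < 1 → ∀ᶠ k in atTop,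
          ((1 - ε) * h v) ^ m k ≤ addProb a (L k) (N k) (m k) ∧
          addProb a (L k) (N k) (m k) ≤ ((1 + ε) * h v) ^ m k) ∧
    -- the rate at close packing
    Tendsto (fun v => (v - v₀ a) * Real.log (h v)) (𝓝[>] (v₀ a)) (𝓝 (-(4 * √3 * a ^ 2))) ∧
    -- the number of the vacancies near close packing
    ∀ ε : ℝ, 0 < ε → ∃ δ : ℝ, 0 < δ ∧ ∀ v : ℝ, v₀ a < v → v < v₀ a + δ →
      ∀ (N : ℕ → ℕ) (L : ℕ → ℝ), Tendsto N atTop atTop → Tendsto L atTop atTop →
      Tendsto (fun k => L k ^ 2 / N k) atTop (𝓝 v) →
      Tendsto (fun k => prob a (L k) (N k) {x | ∀ n : ℕ,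
        (n ≤ Real.exp (-(4 * √3 * a ^ 2 + ε) / (v - v₀ a)) * N k → CanAdd a (L k) x n) ∧
        (Real.exp (-(4 * √3 * a ^ 2 / 3 - ε) / (v - v₀ a)) * N k ≤ n → ¬ CanAdd a (L k) x n)})
        atTop (𝓝 1) := by
  obtain ⟨-, κ, -, hE⟩ := EquationOfStateClosePacking.result
  obtain ⟨f, hfe, hlim, -⟩ := hE a ha
  have hfe' : ∀ v : ℝ, 2 * √3 * a ^ 2 < v → H96.HD.IsFreeEnergy a v (f v) := fun v hv => hfe v hv
  have hcvx : ConvexOn ℝ (Ioi (2 * √3 * a ^ 2)) f := by
    refine ⟨convex_Ioi _, ?_⟩
    intro x hx y hy p q hp hq hpq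
    have hx' : 2 * √3 * a ^ 2 < x := hx
    have hy' : 2 * √3 * a ^ 2 < y := hy
    have h1 : 0 < max x y := lt_of_lt_of_le (lt_trans (by positivity) hx') (le_max_left _ _)
    have h2 := H96.CP.all_cvxf a (max x y) f ha h1 (fun v hv => hfe' v hv.1)
    have hv0 : 0 < 2 * √3 * a ^ 2 := by positivity
    exact h2.2 ⟨hx', by linarith [le_max_left x y]⟩ ⟨hy', by linarith [le_max_right x y]⟩ hp hq hpq
  obtain ⟨h, h1, h2⟩ := H96.CP.law ha hfe' hcvx hlim
  refine ⟨h, fun v hv => ⟨(h1 v hv).1, fun N L hN hL hLN => ?_⟩, h2, fun ε hε =>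
    H96.CP.num_law H96.CP.add H96.CP.scaleB ha hfe' hcvx hlim ε hε⟩
  obtain ⟨g1, g2⟩ := (h1 v hv).2 N L hN hL hLN
  refine ⟨g1, fun m hm ε hε hε1 => ?_⟩
  filter_upwards [g2 m hm ε hε hε1] with k hk
  have e : addProb a (L k) (N k) (m k) =
      H96.CP.CV a (L k) (N k + m k) / (L k ^ (2 * m k) * H96.CP.CV a (L k) (N k)) := by
    unfold addProb H96.CP.CV
    rw [← H96.CP.hole a (L k) (N k) (m k), pow_mul]
    rfl
  rw [e]
  exact hk

end Pool.Agent.Results.MP_09cbbd_mp.HoleLaw
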