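import Pool.Agent.H96.CP.Fin4
import Pool.Agent.H96.CP.AllA
import Pool.Agent.H96.CP.Convp
import Pool.Agent.H96.CP.Reg
import Pool.Agent.H53.CP.Ex
import Pool.Agent.H61.CP.Sqp
import Pool.Agent.H61.CP.Boxp

/-!
# MP_09cbbd_mp: local crystalline order of hard disks near close packing

Hard disks of radius `a` in the plane (`d = 2`) at the area `v` per disk, in the thermodynamic limit;
`v₀ = 2 √3 a²` is the value of `v` at close packing. A disk is `t`-regular if it has exactly six
neighbours and they form a regular hexagon (of the size of close packing) up to errors `t a`. For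
every `ε > 0` and all `v` close enough to `v₀`, with probability at least `1 - exp (- c ε N)`: for all
`t ∈ [x^(1 - ε), 1]`, `x = (v - v₀) / a²`, all but `ε x N / t` disks are `t`-regular.

So defects (`t` of order one: vacancies, dislocations, grain boundaries) have the density `o(v - v₀)`:
their share of the free area `v - v₀` vanishes at close packing, and the free area is asymptotically
carried by deviations of the order `(v - v₀)^(1 - o(1))` of the local hexagons. A packing without this
is not impossible but improbable: by the area inequality every packing has at most `C x N / t` disks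
which are not `t`-regular, and a packing with vacancies of density `x / 3` shows that `ε` cannot be had
for all packings.

Proof: the upper bound of the partition function of the file `EquationOfStateClosePacking` (area
inequality, division into squares of side `(log s)⁴`, `s = 2 / (v - v₀)`, linear model) also holds if the
area defects larger than `(log s)^10 / s` are counted only half; the constants of the upper and of the
lower bound agree, therefore configurations in which these defects have a total of `η x N` have
probability at most `exp (- η N / 2)`. A disk with a small area defect is regular (quantitative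
stability of the theorem of Thue).
-/

set_option autoImplicit false

open MeasureTheory Set Filter Topology

namespace Pool.Agent.Results.MP_09cbbd_mp.LocalCrystallineOrder

/-- The configurations of `N` hard disks of radius `a` with centres in the square `[0, L]²`. -/
def Conf (a L : ℝ) (N : ℕ) : Set (Fin N → ℂ) :=
  {x | (∀ i, (x i).re ∈ Icc 0 L ∧ (x i).im ∈ Icc 0 L) ∧ ∀ i j, i ≠ j → 2 * a ≤ ‖x i - x j‖}

/-- The area per particle at close packing. -/
noncomputable def v₀ (a : ℝ) : ℝ := 2 * √3 * a ^ 2

/-- The disk `i` is `t`-regular: there are six disks whose centres are, up to `t a`, the vertices of a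
regular hexagon with centre `x i` and side `2 a`, and all other disks are at distance at least
`3.2 a`. -/
def Regular (a t : ℝ) {N : ℕ} (x : Fin N → ℂ) (i : Fin N) : Prop :=
  ∃ (j : Fin 6 → Fin N) (z : ℂ), Function.Injective j ∧ ‖z‖ = 2 * a ∧
    (∀ m : Fin 6, ‖x (j m) - x i - Complex.exp (m * (Real.pi / 3) * Complex.I) * z‖ ≤ t * a) ∧
    ∀ k : Fin N, k ≠ i → (∀ m, k ≠ j m) → 3.2 * a ≤ ‖x k - x i‖

open Classical in
/-- The number of the disks which are not `t`-regular. -/
noncomputable def irregular (a t : ℝ) {N : ℕ} (x : Fin N → ℂ) : ℕ :=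
  (Finset.univ.filter fun i => ¬ Regular a t x i).card

/-- **Local crystalline order of hard disks near close packing.** -/
theorem result : ∃ c : ℝ, 0 < c ∧ ∀ ε : ℝ, 0 < ε → ε < 1 → ∃ δ : ℝ, 0 < δ ∧ ∀ a v : ℝ, 0 < a →
    v₀ a < v → v < v₀ a + δ * a ^ 2 → ∀ (N : ℕ → ℕ) (L : ℕ → ℝ),
    Tendsto N atTop atTop → Tendsto L atTop atTop →
    Tendsto (fun k => L k ^ 2 / N k) atTop (𝓝 v) → ∀ᶠ k in atTop,
    0 < volume (Conf a (L k) (N k)) ∧
    volume {x ∈ Conf a (L k) (N k) | ∃ t : ℝ, ((v - v₀ a) / a ^ 2) ^ (1 - ε) ≤ t ∧ t ≤ 1 ∧
      ε * ((v - v₀ a) / a ^ 2) * N k < t * irregular a t x} ≤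
      ENNReal.ofReal (Real.exp (-(c * ε * N k))) * volume (Conf a (L k) (N k)) := by
  have hex : ∀ y : ℝ, 0 < y → ∃ f, H96.CP.FE (H96.HD.v0 + y) f := by
    intro y hy
    have h3 : (0:ℝ) < √3 := by positivity
    have h33 : √3 ^ 2 = 3 := Real.sq_sqrt (by norm_num)
    have ha : 0 < √3 / 2 := by positivity
    have e1 : 2 * √3 * (√3 / 2) ^ 2 = H96.HD.v0 := by
      unfold H96.HD.v0
      rw [div_pow, h33]
      ring
    obtain ⟨f, hf⟩ := H53.CP.ex (√3 / 2) (H96.HD.v0 + y) ha (by rw [e1]; linarith)
    have h := H96.CP.FE_of_free ha hf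
    have e2 : 3 * (H96.HD.v0 + y) / (4 * (√3 / 2) ^ 2) = H96.HD.v0 + y := by
      rw [div_pow, h33]
      ring
    rw [e2] at h
    exact ⟨_, h⟩
  exact H96.CP.order H96.CP.all_lin H96.CP.all_sq H96.CP.all_box H96.CP.all_low hex
    (H61.CP.sqp H96.CP.all_sq) (H61.CP.boxp H96.CP.Convp.convp) H96.CP.reg

end Pool.Agent.Results.MP_09cbbd_mp.LocalCrystallineOrder
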